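import Pool.Agent.R595.SK.Fin

set_option autoImplicit false

namespace Pool.Agent.Results.MP_fafcbd_gt.FriedmanHausdorff

open Pool.Agent.R595.SK

/-- Friedman's principle for `ω₂` implies that there is a hereditarily normal, first countable,
scattered and countably compact space which is not Staeckel-compact. -/
theorem result : FriedmanPrinciple →
    ∃ (X : Type) (_ : TopologicalSpace X),
      T5Space X ∧ FirstCountableTopology X ∧ CoverCtblCompact X ∧ Scattered X ∧ ¬ Staeckel X :=
  fun hF => ⟨SP0, inferInstance, t5_SP0, fc_SP0, ob_SP0.cover, sc_SP0, ns_SP0 hF⟩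

end Pool.Agent.Results.MP_fafcbd_gt.FriedmanHausdorff
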